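import Mathlib

set_option autoImplicit false

/-!
# Isolated singularities of plane curves: a double component through a point is excluded
-/

namespace Pool.Agent.TH868.IS

open MvPolynomial

/-- The plane curve `G = 0` has an isolated singularity (or no singularity) at the point `p`: there
is a form `g` with `g p ≠ 0` such that the only possible singular point of the curve in the open
set `g ≠ 0` is `p`. -/
def IsolatedAt (G : MvPolynomial (Fin 3) ℂ) (p : Fin 3 → ℂ) : Prop :=
  ∃ (e : ℕ) (g : MvPolynomial (Fin 3) ℂ), g.IsHomogeneous e ∧ eval p g ≠ 0 ∧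
    ∀ q : Fin 3 → ℂ, (∀ j : Fin 3, eval q (pderiv j G) = 0) → eval q g ≠ 0 →
      ∃ t : ℂ, q = t • p

/-- Hilbert's Nullstellensatz for an irreducible polynomial. -/
theorem dvd_of_zero {f h : MvPolynomial (Fin 3) ℂ} (hf : Irreducible f)
    (H : ∀ q : Fin 3 → ℂ, eval q f = 0 → eval q h = 0) : f ∣ h := by
  have h1 : h ∈ vanishingIdeal ℂ (zeroLocus ℂ (Ideal.span {f})) := by
    rw [mem_vanishingIdeal_iff]
    intro q hq
    rw [mem_zeroLocus_iff] at hq
    have h2 := hq f (Ideal.mem_span_singleton_self f)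
    rw [MvPolynomial.aeval_eq_eval] at h2 ⊢
    exact H q h2
  rw [vanishingIdeal_zeroLocus_eq_radical] at h1
  have hp : (Ideal.span {f} : Ideal (MvPolynomial (Fin 3) ℂ)).IsPrime := by
    rw [Ideal.span_singleton_prime hf.ne_zero]
    exact hf.prime
  rw [hp.radical, Ideal.mem_span_singleton] at h1
  exact h1

theorem lin_ne {a : ℂ} {i : Fin 3} (hi : i ≠ 2) :
    coeff (Finsupp.single i 1) (X i - C a * X 2 : MvPolynomial (Fin 3) ℂ) = 1 := by
  rw [coeff_sub, coeff_C_mul, coeff_X, coeff_X, if_pos rfl, if_neg]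
  · simp
  · intro h
    exact hi ((Finsupp.single_left_inj (one_ne_zero)).1 h).symm

theorem lin_zero {a : ℂ} {i j : Fin 3} (hi : i ≠ 2) (hij : j ≠ i) :
    coeff (Finsupp.single i 1) (X j - C a * X 2 : MvPolynomial (Fin 3) ℂ) = 0 := by
  rw [coeff_sub, coeff_C_mul, coeff_X, coeff_X, if_neg, if_neg]
  · simp
  · intro h
    exact hi ((Finsupp.single_left_inj (one_ne_zero)).1 h).symm
  · intro h
    exact hij ((Finsupp.single_left_inj (one_ne_zero)).1 h)

theorem lin_deg {a : ℂ} {i : Fin 3} :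
    (X i - C a * X 2 : MvPolynomial (Fin 3) ℂ).totalDegree ≤ 1 := by
  refine (totalDegree_sub _ _).trans (max_le ?_ ?_)
  · exact (totalDegree_X i).le
  · refine (totalDegree_mul _ _).trans ?_
    rw [totalDegree_C, totalDegree_X]

theorem not_both {f : MvPolynomial (Fin 3) ℂ} {a b : ℂ} (h1 : 1 ≤ f.totalDegree)
    (h : f ∣ (X 0 - C a * X 2)) (h' : f ∣ (X 1 - C b * X 2)) : False := by
  have key : ∀ (i : Fin 3) (c : ℂ), i ≠ 2 → f ∣ (X i - C c * X 2) →
      ∃ k : ℂ, X i - C c * X 2 = C k * f := by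
    intro i c hi ⟨g, hg⟩
    have hne : (X i - C c * X 2 : MvPolynomial (Fin 3) ℂ) ≠ 0 := by
      intro h0
      have := lin_ne (a := c) hi
      rw [h0, coeff_zero] at this
      exact zero_ne_one this
    have hf0 : f ≠ 0 := by
      rintro rfl
      exact hne (by rw [hg, zero_mul])
    have hg0 : g ≠ 0 := by
      rintro rfl
      exact hne (by rw [hg, mul_zero])
    have h2 : (X i - C c * X 2 : MvPolynomial (Fin 3) ℂ).totalDegree ≤ 1 := lin_deg
    rw [hg, totalDegree_mul_of_isDomain hf0 hg0] at h2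
    have h3 : g.totalDegree = 0 := by omega
    rw [totalDegree_eq_zero_iff_eq_C] at h3
    exact ⟨_, by rw [hg, mul_comm]; congr 1⟩
  obtain ⟨k, hk⟩ := key 0 a (by decide) h
  obtain ⟨l, hl⟩ := key 1 b (by decide) h'
  have c1 := congrArg (coeff (Finsupp.single (0 : Fin 3) 1)) hk
  have c2 := congrArg (coeff (Finsupp.single (0 : Fin 3) 1)) hl
  have c3 := congrArg (coeff (Finsupp.single (1 : Fin 3) 1)) hl
  rw [lin_ne (by decide), coeff_C_mul] at c1
  rw [lin_zero (by decide) (by decide), coeff_C_mul] at c2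
  rw [lin_ne (by decide), coeff_C_mul] at c3
  have hf : coeff (Finsupp.single (0 : Fin 3) 1) f ≠ 0 := by
    intro h0
    rw [h0, mul_zero] at c1
    exact one_ne_zero c1
  have hl0 : l = 0 := by
    rcases mul_eq_zero.1 c2.symm with h0 | h0
    · exact h0
    · exact absurd h0 hf
  rw [hl0, zero_mul] at c3
  exact one_ne_zero c3

/-- A curve with a multiple component through `p` has no isolated singularity at `p`. -/
theorem not_isolated {f G : MvPolynomial (Fin 3) ℂ} {a b : ℂ} (hf : Irreducible f)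
    (hp : eval ![a, b, 1] f = 0) (hG : f ^ 2 ∣ G) : ¬ IsolatedAt G ![a, b, 1] := by
  rintro ⟨e, g, -, hg, H⟩
  have hdeg : 1 ≤ f.totalDegree := by
    by_contra hlt
    have h0 : f.totalDegree = 0 := by omega
    rw [totalDegree_eq_zero_iff_eq_C] at h0
    rw [h0, eval_C] at hp
    exact hf.ne_zero (by rw [h0, hp, C_0])
  have sing : ∀ q : Fin 3 → ℂ, eval q f = 0 → ∀ j : Fin 3, eval q (pderiv j G) = 0 := by
    intro q hq j
    obtain ⟨k, rfl⟩ := hG
    rw [pow_two, Derivation.leibniz, Derivation.leibniz]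
    simp [hq]
  have hd : ∀ (i : Fin 3) (c : ℂ), (∀ t : ℂ, eval (t • ![a, b, 1]) (X i - C c * X 2) = 0) →
      f ∣ (X i - C c * X 2) := by
    intro i c hc
    have h1 : f ∣ (X i - C c * X 2) * g := by
      refine dvd_of_zero hf fun q hq => ?_
      by_cases hgq : eval q g = 0
      · rw [map_mul, hgq, mul_zero]
      · obtain ⟨t, rfl⟩ := H q (sing q hq) hgq
        rw [map_mul, hc t, zero_mul]
    rcases hf.prime.dvd_or_dvd h1 with h2 | h2
    · exact h2
    · exfalso
      obtain ⟨k, rfl⟩ := h2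
      apply hg
      rw [map_mul, hp, zero_mul]
  refine not_both hdeg (hd 0 a fun t => ?_) (hd 1 b fun t => ?_)
  · simp [mul_comm]
  · simp [mul_comm]

end Pool.Agent.TH868.IS
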